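import Mathlib
import Pool.Agent.H200G.Core
import Pool.Agent.H200W.All
import Pool.Agent.TH167.SH.Segre
import Pool.Agent.H248R5.Gen

set_option autoImplicit false

/-!
# Segre's conjecture for standard forms with a core and a union of families

Arbitrary multiplicities at some points, and a union of families at the others. The multiplicities at a
set `S` of points are a UNION OF FAMILIES (`Pool.Agent.H200G.Un`) if the points of `S` can be divided into
groups, of any number and any sizes, such that in every group the sum of the squares of the multiplicities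
is at least `2 ^ 29` times the number of the different nonzero values times the square of the largest one.
`CoreG d w` (`Pool.Agent.H200G.CoreG`): for some `μ` and some set `C` of points, which may have ARBITRARY large
multiplicities, all other multiplicities are at most `μ` and a union of families, and one of the following
holds:
* (`WideG`) `C` has three points, with multiplicities `w (p 2) ≤ w (p 1) ≤ w (p 0)`,
  `w (p 0) + w (p 1) + w (p 2) ≤ d` and `w (p 0) + 2 ^ 28 (μ + 1) ≤ d`;
* (`ChainG`) `C` consists of a point `p` and a set `A` of points on a chain of curves of degrees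
  `E 0 ≥ E 1 ≥ … ≥ 1`, i.e. with `w i ≤ m` for `i ∈ A`,
  `w p + (E 0 + … + E (m - 1)) + 2 ^ 34 (μ + 1) E 0 ≤ d`, and for `k < m`, if `k = 0` or `E k < E (k - 1)`,
  `∑_A max (w i - k) 0 + E k (E 0 + … + E (k - 1)) + 2 ^ 38 (μ + 1) E k (E 0 + E k g k) ≤ E k d`, where
  `g k` is the number of the `i ∈ A` with `k < w i ≤ k + 2 ^ 33 (μ + 1)`;
* (`PackG`) for some `0 < η ≤ 1` and `m1`: `w i ≤ m1` on `C`,
  `∑_C (w i + 2 ^ 24 (μ + 1) / η) ^ 2 + (7 m1 + 2 ^ 27 (μ + 1) / η) d ≤ d ^ 2` and
  `∑_C w i (w i + 1) ≤ (1 - η) d ^ 2`.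
`CoreFam d w` (`Pool.Agent.H200G.CoreFam`): `CoreG d w`; or there is `(e; v)` with `CoreG e v`, `e ≥ d`, `v ≤ w`
and `(e + 2).choose 2 ≤ ∑ (v i + 1).choose 2`; or there is `(e; v)` with `CoreG e v`, `e ≤ d`, on at least
these points, with `w ≤ v` and `∑ (v i + 1).choose 2 ≤ (e + 2).choose 2`. All constants are explicit; there
is no condition on the sum of the squares in comparison to `d ^ 2`.

At general points all systems `(d; w)` with `CoreFam d w` are non-special. Let `(d; w)` be any class and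
let the points be general. If the linear system is special, then twice a `(-1)`-curve is a fixed part
of it, or, after the removal of disjoint `(-1)`-curves, each taken once, and finitely many quadratic
transformations, it is a special standard class `(d'; w')` of the same dimension without
`CoreFam d' w'`.
-/

namespace Pool.Agent.Results.MP_cfebfb_ag.SegreCoreFamilies

open MvPolynomial Pool.Agent.TH167.SHDefs Pool.Agent.H200G
open Pool.Agent.Y536.SH (Standard hh_full)

theorem nonspecial_of {n : ℕ} {P : Fin n → Fin 2 → ℂ} {d : ℕ} {w : Fin n → ℕ}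
    (h : Pool.Agent.H932R3.ExpDim ℂ w P d) : ¬ Special P d w := by
  have h1 : Module.finrank ℂ ↥(sys P d w) =
      Nat.choose (d + 2) 2 - ∑ i, Nat.choose (w i + 1) 2 := h
  have h2 : ∑ i, ((w i + 1).choose 2 : ℤ) = ((∑ i, Nat.choose (w i + 1) 2 : ℕ) : ℤ) := by
    push_cast
    rfl
  unfold Special dimL virtdim
  rw [h1, h2]
  push Not
  omega

theorem result (n : ℕ) (hn : 4 ≤ n) (d : ℕ) (w : Fin n → ℕ) :
    ∃ F : MvPolynomial (Fin n × Fin 2) ℂ, F ≠ 0 ∧
      ∀ P : Fin n → Fin 2 → ℂ, eval (fun ij : Fin n × Fin 2 => P ij.1 ij.2) F ≠ 0 →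
        (CoreFam d w → ¬ Special P d w) ∧
        (Special P d w →
          (∃ (G : MvPolynomial (Fin 3) ℂ) (e : ℕ) (u : Fin n → ℕ),
            MinusOne P G e u ∧ inter d w e u ≤ -2 ∧ ∀ f ∈ sys P d w, G ^ 2 ∣ f) ∨
          ∃ (d'' : ℕ) (w'' : Fin n → ℕ) (k : ℕ) (G : Fin k → MvPolynomial (Fin 3) ℂ)
            (e : Fin k → ℕ) (u : Fin k → Fin n → ℕ) (d' : ℕ) (w' : Fin n → ℕ),
            Decomp P d w d'' w'' G e u (fun _ => 1) ∧
            Relation.ReflTransGen Quadratic (d'', w'') (d', w') ∧ Standard d' w' ∧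
            dimL P d' w' = dimL P d w ∧ Special P d' w' ∧ ¬ CoreFam d' w') := by
  obtain ⟨F1, hF1, hF1'⟩ : ∃ F : MvPolynomial (Fin n × Fin 2) ℂ, F ≠ 0 ∧
      ∀ P : Fin n → Fin 2 → ℂ, eval (fun ij : Fin n × Fin 2 => P ij.1 ij.2) F ≠ 0 →
        (CoreFam d w → ¬ Special P d w) := by
    by_cases h : CoreFam d w
    · obtain ⟨F, hF, hF'⟩ := Pool.Agent.TH442.NF.to_open (d := d) (w := w)
        fun hP => coreFam_all h hP
      refine ⟨F.map (algebraMap ℚ ℂ), Pool.Agent.H932R3.map_ne_zero_of hF, fun P hP _ => ?_⟩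
      rw [MvPolynomial.eval_map] at hP
      exact nonspecial_of (hF' (L := ℂ) P hP)
    · exact ⟨1, one_ne_zero, fun P _ h' => absurd h' h⟩
  obtain ⟨r, rfl⟩ : ∃ r, n = r + 4 := ⟨n - 4, by omega⟩
  obtain ⟨F, hF, hF'⟩ := hh_full (Q := fun d' w' => CoreFam d' w')
    (fun hP d1 w1 _ hG => coreFam_all hG hP) d w
  refine ⟨F1 * (F.map (algebraMap ℚ ℂ) * Pool.Agent.H248R5.disc ℂ (r + 4)),
    mul_ne_zero hF1 (mul_ne_zero (Pool.Agent.TH167.SH.map_ne hF)
      (Pool.Agent.H248R5.disc_ne ℂ (r + 4))), fun P hP => ?_⟩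
  rw [map_mul, map_mul] at hP
  have hP1 := left_ne_zero_of_mul hP
  have hP2 := left_ne_zero_of_mul (right_ne_zero_of_mul hP)
  have hinj := Pool.Agent.H248R5.inj_of_disc (right_ne_zero_of_mul (right_ne_zero_of_mul hP))
  rw [Pool.Agent.TH167.SH.evP_eval] at hP2
  refine ⟨hF1' P hP1, fun hs => ?_⟩
  rw [Pool.Agent.TH167.SH.special_conv] at hs
  have hcur : ∀ {G : MvPolynomial (Fin 3) ℂ} {e : ℕ} {u : Fin (r + 4) → ℕ}, MinusOne P G e u →
      inter d w e u ≤ -2 → ∃ (G : MvPolynomial (Fin 3) ℂ) (e : ℕ) (u : Fin (r + 4) → ℕ),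
        MinusOne P G e u ∧ inter d w e u ≤ -2 ∧ ∀ f ∈ sys P d w, G ^ 2 ∣ f :=
    fun {G e u} h1 h2 => ⟨G, e, u, h1, h2, fun f hf =>
      Pool.Agent.TH167.SH.curve_sq_dvd hinj h1 h2 hf⟩
  rcases hF' ℂ P hP2 hs with h | ⟨d', w', k, C, e, u, N, d1, w1, h1, h2, h3, h4, h5, h6⟩
  · left
    obtain ⟨G, e, u, c1, c2⟩ :=
      Pool.Agent.TH167.SH.mspecial_curve ((Pool.Agent.TH167.SH.mspecial_conv P d w).2 h)
    exact hcur c1 c2
  · by_cases hN : ∃ a, 2 ≤ N a
    · left
      obtain ⟨a, ha⟩ := hN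
      refine hcur (Pool.Agent.TH167.SH.minusOne_iff.2 (h1.exc a)) ?_
      rw [Pool.Agent.TH167.SH.inter_eq, h1.neg a]
      omega
    · right
      push Not at hN
      have hN1 : N = fun _ => 1 := by
        funext a
        have := h1.pos a
        have := hN a
        omega
      subst hN1
      refine ⟨d', w', k, C, e, u, d1, w1, Pool.Agent.TH167.SH.decomp_iff.2 h1,
        Pool.Agent.TH167.SH.chain_conv h2, h3, ?_,
        (Pool.Agent.TH167.SH.special_conv P d1 w1).2 h4, h6⟩
      rw [Pool.Agent.TH167.SH.dimL_eq, Pool.Agent.TH167.SH.dimL_eq, h5]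

end Pool.Agent.Results.MP_cfebfb_ag.SegreCoreFamilies

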