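import Mathlib
import Pool.Agent.H200G.All
import Pool.Agent.H200W.All
import Pool.Agent.TH167.SH.Segre
import Pool.Agent.H248R5.Gen

set_option autoImplicit false

/-!
# Segre's conjecture for all classes whose standard form is a union of families

The multiplicities `w` are a UNION OF FAMILIES (`Pool.Agent.H200G.Families`) if the points can be divided
into groups, of any number and any sizes, such that in every group the sum of the squares of the
multiplicities is at least `2 ^ 29` times the number of the different nonzero values times the square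
of the largest one; e.g. if every nonzero value occurs at least `2 ^ 29` times.
`Fam d w` (`Pool.Agent.H200G.Fam`): `w` is a union of families; or there is a union `v ≤ w` of families
with `(d + 2).choose 2 ≤ ∑ (v i + 1).choose 2`; or a union `v` of families on at least these points with
`w ≤ v` and `∑ (v i + 1).choose 2 ≤ (d + 2).choose 2`. This includes all `w` such that the points whose
multiplicity occurs at least `2 ^ 29` times impose at least `(d + 2).choose 2` conditions, and all with
`∑ (w i + 1).choose 2 + 2 ^ 29 ∑ (a + 1).choose 2 ≤ (d + 2).choose 2`, where `a` runs through the other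
values (`Pool.Agent.H200G.rep_fam`).

At general points all systems `(d; w)` with `Fam d w` are non-special. Let `(d; w)` be any class and
let the points be general. If the linear system is special, then twice a `(-1)`-curve is a fixed part
of it, or, after the removal of disjoint `(-1)`-curves, each taken once, and finitely many quadratic
transformations, it is a special standard class `(d'; w')` of the same dimension without
`Fam d' w'`.
-/

namespace Pool.Agent.Results.MP_cfebfb_ag.SegreFamilies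

open MvPolynomial Pool.Agent.TH167.SHDefs Pool.Agent.H200G
open Pool.Agent.Y536.SH (Standard hh_full)

theorem nonspecial_of {n : ℕ} {P : Fin n → Fin 2 → ℂ} {d : ℕ} {w : Fin n → ℕ}
    (h : Pool.Agent.H932R3.ExpDim ℂ w P d) : ¬ Special P d w := by
  have h1 : Module.finrank ℂ ↥(sys P d w) =
      Nat.choose (d + 2) 2 - ∑ i, Nat.choose (w i + 1) 2 := h
  have h2 : ∑ i, ((w i + 1).choose 2 : ℤ) = ((∑ i, Nat.choose (w i + 1) 2 : ℕ) : ℤ) := by
    push_cast
    rfl
  unfold Special dimL virtdim
  rw [h1, h2]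
  push Not
  omega

theorem result (n : ℕ) (hn : 4 ≤ n) (d : ℕ) (w : Fin n → ℕ) :
    ∃ F : MvPolynomial (Fin n × Fin 2) ℂ, F ≠ 0 ∧
      ∀ P : Fin n → Fin 2 → ℂ, eval (fun ij : Fin n × Fin 2 => P ij.1 ij.2) F ≠ 0 →
        (Fam d w → ¬ Special P d w) ∧
        (Special P d w →
          (∃ (G : MvPolynomial (Fin 3) ℂ) (e : ℕ) (u : Fin n → ℕ),
            MinusOne P G e u ∧ inter d w e u ≤ -2 ∧ ∀ f ∈ sys P d w, G ^ 2 ∣ f) ∨
          ∃ (d'' : ℕ) (w'' : Fin n → ℕ) (k : ℕ) (G : Fin k → MvPolynomial (Fin 3) ℂ)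
            (e : Fin k → ℕ) (u : Fin k → Fin n → ℕ) (d' : ℕ) (w' : Fin n → ℕ),
            Decomp P d w d'' w'' G e u (fun _ => 1) ∧
            Relation.ReflTransGen Quadratic (d'', w'') (d', w') ∧ Standard d' w' ∧
            dimL P d' w' = dimL P d w ∧ Special P d' w' ∧ ¬ Fam d' w') := by
  obtain ⟨F1, hF1, hF1'⟩ : ∃ F : MvPolynomial (Fin n × Fin 2) ℂ, F ≠ 0 ∧
      ∀ P : Fin n → Fin 2 → ℂ, eval (fun ij : Fin n × Fin 2 => P ij.1 ij.2) F ≠ 0 →
        (Fam d w → ¬ Special P d w) := by
    by_cases h : Fam d w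
    · obtain ⟨F, hF, hF'⟩ := Pool.Agent.TH442.NF.to_open (d := d) (w := w)
        fun hP => fam_all h hP
      refine ⟨F.map (algebraMap ℚ ℂ), Pool.Agent.H932R3.map_ne_zero_of hF, fun P hP _ => ?_⟩
      rw [MvPolynomial.eval_map] at hP
      exact nonspecial_of (hF' (L := ℂ) P hP)
    · exact ⟨1, one_ne_zero, fun P _ h' => absurd h' h⟩
  obtain ⟨r, rfl⟩ : ∃ r, n = r + 4 := ⟨n - 4, by omega⟩
  obtain ⟨F, hF, hF'⟩ := hh_full (Q := fun d' w' => Fam d' w')
    (fun hP d1 w1 _ hG => fam_all hG hP) d w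
  refine ⟨F1 * (F.map (algebraMap ℚ ℂ) * Pool.Agent.H248R5.disc ℂ (r + 4)),
    mul_ne_zero hF1 (mul_ne_zero (Pool.Agent.TH167.SH.map_ne hF)
      (Pool.Agent.H248R5.disc_ne ℂ (r + 4))), fun P hP => ?_⟩
  rw [map_mul, map_mul] at hP
  have hP1 := left_ne_zero_of_mul hP
  have hP2 := left_ne_zero_of_mul (right_ne_zero_of_mul hP)
  have hinj := Pool.Agent.H248R5.inj_of_disc (right_ne_zero_of_mul (right_ne_zero_of_mul hP))
  rw [Pool.Agent.TH167.SH.evP_eval] at hP2
  refine ⟨hF1' P hP1, fun hs => ?_⟩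
  rw [Pool.Agent.TH167.SH.special_conv] at hs
  have hcur : ∀ {G : MvPolynomial (Fin 3) ℂ} {e : ℕ} {u : Fin (r + 4) → ℕ}, MinusOne P G e u →
      inter d w e u ≤ -2 → ∃ (G : MvPolynomial (Fin 3) ℂ) (e : ℕ) (u : Fin (r + 4) → ℕ),
        MinusOne P G e u ∧ inter d w e u ≤ -2 ∧ ∀ f ∈ sys P d w, G ^ 2 ∣ f :=
    fun {G e u} h1 h2 => ⟨G, e, u, h1, h2, fun f hf =>
      Pool.Agent.TH167.SH.curve_sq_dvd hinj h1 h2 hf⟩
  rcases hF' ℂ P hP2 hs with h | ⟨d', w', k, C, e, u, N, d1, w1, h1, h2, h3, h4, h5, h6⟩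
  · left
    obtain ⟨G, e, u, c1, c2⟩ :=
      Pool.Agent.TH167.SH.mspecial_curve ((Pool.Agent.TH167.SH.mspecial_conv P d w).2 h)
    exact hcur c1 c2
  · by_cases hN : ∃ a, 2 ≤ N a
    · left
      obtain ⟨a, ha⟩ := hN
      refine hcur (Pool.Agent.TH167.SH.minusOne_iff.2 (h1.exc a)) ?_
      rw [Pool.Agent.TH167.SH.inter_eq, h1.neg a]
      omega
    · right
      push Not at hN
      have hN1 : N = fun _ => 1 := by
        funext a
        have := h1.pos a
        have := hN a
        omega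
      subst hN1
      refine ⟨d', w', k, C, e, u, d1, w1, Pool.Agent.TH167.SH.decomp_iff.2 h1,
        Pool.Agent.TH167.SH.chain_conv h2, h3, ?_,
        (Pool.Agent.TH167.SH.special_conv P d1 w1).2 h4, h6⟩
      rw [Pool.Agent.TH167.SH.dimL_eq, Pool.Agent.TH167.SH.dimL_eq, h5]

end Pool.Agent.Results.MP_cfebfb_ag.SegreFamilies

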