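import Mathlib
import Pool.Agent.H200M.Near2
import Pool.Agent.TH167.SH.Segre
import Pool.Agent.H248R5.Gen

set_option autoImplicit false

/-!
# Segre's conjecture unless the standard form is critical outside three points

A class `(d; w)` is CRITICAL OUTSIDE THREE POINTS (`Pool.Agent.H200M.Tight3 c`, for a function `c` with
positive values) if for every `ε > 0` and all three points `p` with arbitrary multiplicities
`w (p 2) ≤ w (p 1) ≤ w (p 0)`, `w (p 0) + w (p 1) + w (p 2) ≤ d`, such that `w i ≤ c(ε) (d - w (p 0))` for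
all other points `i`, the volume `X = (d + 1) (d + 2) - ∑_j w (p j) (w (p j) + 1)` left by the three points is
filled by the large ones of the other multiplicities up to the part `ε` (`Pool.Agent.H200M.Tight`): all other
multiplicities together have `|X - ∑ w i (w i + 1)| < ε X`; and
for every `μ` such that all nonzero values `≤ μ` at the other points are taken at least `2 ^ 29` times
there, or the number `k` of the values `≤ μ` satisfies `(k + 1) μ ^ 2 ≤ c(ε) X`, the other
multiplicities `> c(ε) μ` have `∑ w i ^ 2 > (1 - ε) X` and those `≤ c(ε) μ` have `∑ w i ^ 2 < ε X`.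
(`μ = a X ^ (1 / 3)` with a small constant `a` is always such a number, `Pool.Agent.H200M.few_cube`.)

There is a function `c` with positive values such that at general points all systems `(d; w)` which
are not critical outside three points are non-special. Let `(d; w)` be any class and let the points be
general. If the linear system is special, then twice a `(-1)`-curve is a fixed part of it, or, after
the removal of disjoint `(-1)`-curves, each taken once, and finitely many quadratic transformations,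
it is a special standard class of the same dimension which is critical outside three points. The
numbers of points and the multiplicities are arbitrary: `c` depends on nothing.

Without any exception: for all `ε > 0` and all three points `p` as above such that all
other multiplicities are at most `c(ε) (d - w (p 0))`, the dimension of the space of forms is at most
`max (χ, ε X / 2)` (`Pool.Agent.H200M.Bound3`); here `X / 2` is the number of forms left by the three
points, as expected.
-/

namespace Pool.Agent.Results.MP_cfebfb_ag.SegreThreeArbitrary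

open MvPolynomial Pool.Agent.TH167.SHDefs Pool.Agent.H200M
open Pool.Agent.Y536.SH (Standard hh_full)

theorem nonspecial_of {n : ℕ} {P : Fin n → Fin 2 → ℂ} {d : ℕ} {w : Fin n → ℕ}
    (h : Pool.Agent.H932R3.ExpDim ℂ w P d) : ¬ Special P d w := by
  have h1 : Module.finrank ℂ ↥(sys P d w) =
      Nat.choose (d + 2) 2 - ∑ i, Nat.choose (w i + 1) 2 := h
  have h2 : ∑ i, ((w i + 1).choose 2 : ℤ) = ((∑ i, Nat.choose (w i + 1) 2 : ℕ) : ℤ) := by
    push_cast
    rfl
  unfold Special dimL virtdim
  rw [h1, h2]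
  push Not
  omega

theorem result : ∃ c : ℝ → ℝ, (∀ ε, 0 < ε → 0 < c ε) ∧
    ∀ n : ℕ, 4 ≤ n → ∀ (d : ℕ) (w : Fin n → ℕ),
    ∃ F : MvPolynomial (Fin n × Fin 2) ℂ, F ≠ 0 ∧
      ∀ P : Fin n → Fin 2 → ℂ, eval (fun ij : Fin n × Fin 2 => P ij.1 ij.2) F ≠ 0 →
        (¬ Tight3 c d w → ¬ Special P d w) ∧ Bound3 c d w ((dimL P d w : ℝ) + 1) ∧
        (Special P d w →
          (∃ (G : MvPolynomial (Fin 3) ℂ) (e : ℕ) (u : Fin n → ℕ),
            MinusOne P G e u ∧ inter d w e u ≤ -2 ∧ ∀ f ∈ sys P d w, G ^ 2 ∣ f) ∨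
          ∃ (d'' : ℕ) (w'' : Fin n → ℕ) (k : ℕ) (G : Fin k → MvPolynomial (Fin 3) ℂ)
            (e : Fin k → ℕ) (u : Fin k → Fin n → ℕ) (d' : ℕ) (w' : Fin n → ℕ),
            Decomp P d w d'' w'' G e u (fun _ => 1) ∧
            Relation.ReflTransGen Quadratic (d'', w'') (d', w') ∧ Standard d' w' ∧
            dimL P d' w' = dimL P d w ∧ Special P d' w' ∧ Tight3 c d' w') := by
  obtain ⟨c, hc, H, HB⟩ := dim3_all
  refine ⟨c, hc, fun n hn d w => ?_⟩
  obtain ⟨F1, hF1, hF1'⟩ : ∃ F : MvPolynomial (Fin n × Fin 2) ℂ, F ≠ 0 ∧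
      ∀ P : Fin n → Fin 2 → ℂ, eval (fun ij : Fin n × Fin 2 => P ij.1 ij.2) F ≠ 0 →
        (¬ Tight3 c d w → ¬ Special P d w) := by
    by_cases h : ¬ Tight3 c d w
    · obtain ⟨F, hF, hF'⟩ := Pool.Agent.TH442.NF.to_open (d := d) (w := w)
        fun hP => H w h hP
      refine ⟨F.map (algebraMap ℚ ℂ), Pool.Agent.H932R3.map_ne_zero_of hF, fun P hP _ => ?_⟩
      rw [MvPolynomial.eval_map] at hP
      exact nonspecial_of (hF' (L := ℂ) P hP)
    · exact ⟨1, one_ne_zero, fun P _ h' => absurd h' h⟩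
  obtain ⟨F2, hF2, hF2'⟩ := HB.open1 d w
  obtain ⟨r, rfl⟩ : ∃ r, n = r + 4 := ⟨n - 4, by omega⟩
  obtain ⟨F, hF, hF'⟩ := hh_full (Q := fun d' w' => ¬ Tight3 c d' w')
    (fun hP d1 w1 _ hG => H w1 hG hP) d w
  refine ⟨F2.map (algebraMap ℚ ℂ) * (F1 * (F.map (algebraMap ℚ ℂ) *
    Pool.Agent.H248R5.disc ℂ (r + 4))),
    mul_ne_zero (Pool.Agent.H932R3.map_ne_zero_of hF2) (mul_ne_zero hF1
      (mul_ne_zero (Pool.Agent.TH167.SH.map_ne hF)
      (Pool.Agent.H248R5.disc_ne ℂ (r + 4)))), fun P hP' => ?_⟩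
  rw [map_mul] at hP'
  have hP := right_ne_zero_of_mul hP'
  have hP3 := left_ne_zero_of_mul hP'
  rw [eval_map] at hP3
  rw [map_mul, map_mul] at hP
  have hP1 := left_ne_zero_of_mul hP
  have hP2 := left_ne_zero_of_mul (right_ne_zero_of_mul hP)
  have hinj := Pool.Agent.H248R5.inj_of_disc (right_ne_zero_of_mul (right_ne_zero_of_mul hP))
  rw [Pool.Agent.TH167.SH.evP_eval] at hP2
  have hB : Bound3 c d w ((dimL P d w : ℝ) + 1) := by
    have h2 := hF2' ℂ P hP3
    have h3 : ((dimL P d w : ℝ) + 1) = (Module.finrank ℂ ↥(sys P d w) : ℝ) := by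
      unfold dimL
      push_cast
      ring
    rw [h3]
    exact h2
  refine ⟨hF1' P hP1, hB, fun hs => ?_⟩
  rw [Pool.Agent.TH167.SH.special_conv] at hs
  have hcur : ∀ {G : MvPolynomial (Fin 3) ℂ} {e : ℕ} {u : Fin (r + 4) → ℕ}, MinusOne P G e u →
      inter d w e u ≤ -2 → ∃ (G : MvPolynomial (Fin 3) ℂ) (e : ℕ) (u : Fin (r + 4) → ℕ),
        MinusOne P G e u ∧ inter d w e u ≤ -2 ∧ ∀ f ∈ sys P d w, G ^ 2 ∣ f :=
    fun {G e u} h1 h2 => ⟨G, e, u, h1, h2, fun f hf =>
      Pool.Agent.TH167.SH.curve_sq_dvd hinj h1 h2 hf⟩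
  rcases hF' ℂ P hP2 hs with h | ⟨d', w', k, C, e, u, N, d1, w1, h1, h2, h3, h4, h5, h6⟩
  · left
    obtain ⟨G, e, u, c1, c2⟩ :=
      Pool.Agent.TH167.SH.mspecial_curve ((Pool.Agent.TH167.SH.mspecial_conv P d w).2 h)
    exact hcur c1 c2
  · by_cases hN : ∃ a, 2 ≤ N a
    · left
      obtain ⟨a, ha⟩ := hN
      refine hcur (Pool.Agent.TH167.SH.minusOne_iff.2 (h1.exc a)) ?_
      rw [Pool.Agent.TH167.SH.inter_eq, h1.neg a]
      omega
    · right
      push Not at hN
      have hN1 : N = fun _ => 1 := by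
        funext a
        have := h1.pos a
        have := hN a
        omega
      subst hN1
      refine ⟨d', w', k, C, e, u, d1, w1, Pool.Agent.TH167.SH.decomp_iff.2 h1,
        Pool.Agent.TH167.SH.chain_conv h2, h3, ?_,
        (Pool.Agent.TH167.SH.special_conv P d1 w1).2 h4, not_not.1 h6⟩
      rw [Pool.Agent.TH167.SH.dimL_eq, Pool.Agent.TH167.SH.dimL_eq, h5]

end Pool.Agent.Results.MP_cfebfb_ag.SegreThreeArbitrary

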